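import Pool.Agent.D0H36.LC.Cor
import Pool.Agent.D0H52.LW.Conn

/-!
# Additive functions of the chromatic polynomial of a random planar graph: the numbers of the roots

Authors: helper36 (statement, exchange of the contents of the sites, conclusions), helper12, helper28, helper5,
helper6, helper70, helper81, helper85, helper52 (modules), helper22, helper70, helper73 (modules on the sites and
their number).

We consider the labelled planar graphs, or the connected labelled planar graphs, with `n` vertices, all of them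
with the same probability.  `P(G,q)` is the chromatic polynomial.

(1) An additive function `f` of the chromatic polynomials (`f(P Q) = f(P) + f(Q)`) takes the same value for all
connected planar graphs with the same number of vertices, or there is `δ > 0` such that it belongs to no
interval of length `δ` for more than a share `C / √n` of the planar graphs.  (2) If `f` is `0` for `X` and
`X - 1`, then the distributions of `f` and `f + g` have the distance at most `C / √n`, for each value `g` of `f`.

(3) ROOTS.  Let `R` be a set of complex numbers without `0` and `1` which contains a root of one planar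
graph.  For the number `N` of the roots in `R`, with multiplicities: `N ≥ c n` for all but a share `exp (-c n)`;
no number is taken by more than a share `C / √n`; the distributions of `N` and `N + g` have the distance
`≤ C / √n` for all values `g` of `N`.  (4) `log |P(G,z)|` is in no interval of length `1` for more than a share
`C / √n` of the graphs.

(5) If the Birkhoff-Lewis conjecture is false, the laws (3) hold for the real roots `≥ 4`.  So the conjecture
holds if and only if (6) for all `c > 0` there are infinitely many `n` such that more than a share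
`exp (-c n)` of the planar graphs has less than `c n` roots `≥ 4`; or (7) for each `C` there are infinitely many
`n` and numbers `k` such that more than a share `C / √n` of the planar graphs has exactly `k` roots `≥ 4`.

Proof.  A site of `G` is a set of `h` vertices with exactly one edge to the other vertices, on which `G` looks
like one of two fixed 2-edge-connected planar graphs `A`, `B`.  Different sites are disjoint; all but a share
`exp (-c n)` of the planar graphs have `≥ c n` sites.  For a fixed set of `s` sites the contents can be exchanged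
independently, so over the graphs with these sites `f(P(G))` is distributed as `ρ + g β`, `g = f(P(B)) - f(P(A))`,
`β` binomial with `s` and `1/2` and independent of `ρ`.  If `f(P(A)) = f(P(B))` for all `A`, `B` then
`f = f(X) + (n-1) f(X-1)` on the connected planar graphs (book graphs and the bow tie, bridges).  The share of
the connected graphs is at least a constant.
-/

set_option autoImplicit false

namespace Pool.Agent.Results.MP_0d034c_co.AdditiveLaws

open Polynomial Filter

/-- the vertices `u` and `v` are joined by a walk inside the set `S` of vertices -/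
def Joined {V : Type} (G : SimpleGraph V) (S : Set V) (u v : V) : Prop :=
  ∃ w : G.Walk u v, ∀ z ∈ w.support, z ∈ S

/-- five vertices are joined pairwise by walks, walks belonging to disjoint pairs being disjoint -/
def WeakK5 {V : Type} (G : SimpleGraph V) : Prop :=
  ∃ (x : Fin 5 → V) (A : Fin 5 → Fin 5 → Set V),
    (∀ a b, a < b → Joined G (A a b) (x a) (x b)) ∧
    (∀ a b c d, a < b → c < d → a ≠ c → a ≠ d → b ≠ c → b ≠ d → Disjoint (A a b) (A c d))

/-- three vertices are joined to three vertices by walks, walks belonging to disjoint pairs being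
disjoint -/
def WeakK33 {V : Type} (G : SimpleGraph V) : Prop :=
  ∃ (x y : Fin 3 → V) (A : Fin 3 → Fin 3 → Set V),
    (∀ a b, Joined G (A a b) (x a) (y b)) ∧
    (∀ a b c d, a ≠ c → b ≠ d → Disjoint (A a b) (A c d))

/-- Planar graphs: neither of the two configurations.  Graphs drawn in the plane have neither
(van Kampen), and a graph with neither has no `K₅` minor and no `K₃₃` minor, see (P1), (P2); so a finite
graph is `Planar` if and only if it is planar, by the theorem of Wagner (which is not used). -/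
def Planar {V : Type} (G : SimpleGraph V) : Prop := ¬ WeakK5 G ∧ ¬ WeakK33 G

/-- `G` can be drawn in the plane with non-crossing arcs (as in the frozen statement) -/
def Drawn {V : Type} (G : SimpleGraph V) : Prop :=
  ∃ (f : V → ℝ × ℝ) (γ : V → V → ℝ → ℝ × ℝ),
    Function.Injective f ∧
    (∀ u v : V, G.Adj u v →
      ContinuousOn (γ u v) (Set.Icc (0:ℝ) 1) ∧ Set.InjOn (γ u v) (Set.Icc (0:ℝ) 1) ∧
      γ u v 0 = f u ∧ γ u v 1 = f v ∧
      ∀ t ∈ Set.Ioo (0:ℝ) 1, ∀ w : V, γ u v t ≠ f w) ∧
    (∀ u v u' v' : V, G.Adj u v → G.Adj u' v' → s(u, v) ≠ s(u', v') →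
      ∀ t ∈ Set.Ioo (0:ℝ) 1, ∀ t' ∈ Set.Ioo (0:ℝ) 1, γ u v t ≠ γ u' v' t')

/-- `K` is a minor of `G`: there are disjoint connected sets `β w` of vertices of `G`, for the vertices `w` of
`K`, joined by an edge of `G` whenever the vertices are adjacent in `K` -/
def IsMinor {V W : Type} (K : SimpleGraph W) (G : SimpleGraph V) : Prop :=
  ∃ β : W → Set V, (∀ w, (G.induce (β w)).Connected) ∧ (∀ w w', w ≠ w' → Disjoint (β w) (β w')) ∧
    ∀ w w', K.Adj w w' → ∃ x ∈ β w, ∃ y ∈ β w', G.Adj x y

/-- the chromatic polynomial, see (P3) -/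
noncomputable def P {V : Type} [Finite V] (G : SimpleGraph V) : ℝ[X] := Pool.Agent.H207R2.BL.chr G

/-- the Birkhoff-Lewis conjecture -/
def BirkhoffLewis : Prop :=
  ∀ q : ℝ, 4 ≤ q → ∀ (V : Type) [Finite V] (G : SimpleGraph V), Planar G → 0 < (P G).eval q

/-- the complex number `z` is a root of the chromatic polynomial of a finite planar graph -/
def PlanarRoot (z : ℂ) : Prop :=
  ∃ (V : Type) (_ : Finite V) (G : SimpleGraph V), Planar G ∧ aeval z (P G) = 0

/-- the two models: all planar graphs, the connected planar graphs -/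
inductive Model
  | all
  | connected

/-- the graphs of the model -/
def Model.Member (κ : Model) {V : Type} (G : SimpleGraph V) : Prop :=
  match κ with
  | .all => Planar G
  | .connected => Planar G ∧ G.Connected

/-- the share of the graphs with the property `p` among the graphs of the model `κ` with the vertices
`0, …, n - 1` -/
noncomputable def share (κ : Model) (n : ℕ) (p : SimpleGraph (Fin n) → Prop) : ℝ :=
  (Nat.card {G : SimpleGraph (Fin n) // κ.Member G ∧ p G} : ℝ) /
    (Nat.card {G : SimpleGraph (Fin n) // κ.Member G} : ℝ)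

/-- `f c n ≤ exp (-c n)` for some `c > 0` and all large `n` -/
def ExpSmall (f : ℝ → ℕ → ℝ) : Prop :=
  ∃ c : ℝ, 0 < c ∧ ∀ᶠ n : ℕ in atTop, f c n ≤ Real.exp (-(c * n))

/-- `f` is additive on a set of polynomials which is closed under products and contains `1`, `X`, `X - 1`,
`X - 2` and the chromatic polynomials of the finite planar graphs -/
def IsAdditive (f : ℝ[X] → ℝ) : Prop :=
  ∃ S : Submonoid ℝ[X], X ∈ S ∧ X - 1 ∈ S ∧ X - 2 ∈ S ∧
    (∀ (V : Type) [Finite V] (G : SimpleGraph V), Planar G → P G ∈ S) ∧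
    ∀ p ∈ S, ∀ q ∈ S, f (p * q) = f p + f q

open Classical in
/-- the number of the complex chromatic roots of `G` in `R`, with multiplicities -/
noncomputable def N {V : Type} [Finite V] (R : Set ℂ) (G : SimpleGraph V) : ℕ :=
  (((P G).map (algebraMap ℝ ℂ)).roots.filter (fun z => z ∈ R)).card

/-- the real numbers `≥ 4` -/
def RealGeFour : Set ℂ := {z | z.im = 0 ∧ 4 ≤ z.re}

/-- the laws (3) for the number of the roots in `R` -/
def RootLaws (κ : Model) (R : Set ℂ) : Prop :=
  ExpSmall (fun c n => share κ n (fun G => (N R G : ℝ) < c * n)) ∧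
  (∃ C : ℝ, ∀ n : ℕ, 1 ≤ n → ∀ k : ℕ, share κ n (fun G => N R G = k) ≤ C / Real.sqrt n) ∧
  (∀ (V : Type) [Finite V] (G₀ : SimpleGraph V), Planar G₀ → ∃ C : ℝ, ∀ n : ℕ, 1 ≤ n → ∀ T : Set ℕ,
    |share κ n (fun G => N R G ∈ T) - share κ n (fun G => N R G + N R G₀ ∈ T)| ≤ C / Real.sqrt n)

/-- the class of the graphs of the model -/
def cls (κ : Model) (V : Type) (G : SimpleGraph V) : Prop := κ.Member G

theorem sub_cls (κ : Model) : Pool.Agent.D0H36.LC.Sub (cls κ) := by
  cases κ with
  | all => exact Pool.Agent.D0H36.LC.sub_all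
  | connected => exact Pool.Agent.D0H36.LC.sub_con Pool.Agent.D0H52.LW.t_CONN

theorem share_eq (κ : Model) (n : ℕ) (p : SimpleGraph (Fin n) → Prop) :
    share κ n p = Pool.Agent.D0H36.BL.share (cls κ) n p := by
  unfold share Pool.Agent.D0H36.BL.share Pool.Agent.D0H36.BL.num Pool.Agent.D0H36.BL.cnt
  congr 2
  exact Nat.card_congr (Equiv.subtypeEquivRight (fun G => ⟨fun h => ⟨h, trivial⟩, fun h => h.1⟩))

theorem num_eq (κ : Model) (n : ℕ) : Pool.Agent.D0H36.BL.num (cls κ) n =
    Nat.card {G : SimpleGraph (Fin n) // κ.Member G} :=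
  Nat.card_congr (Equiv.subtypeEquivRight (fun G => ⟨fun h => h.1, fun h => ⟨h, trivial⟩⟩))

theorem exp_small {f : ℝ → ℕ → ℝ} (h : ∃ c : ℝ, 0 < c ∧ ∃ n₀ : ℕ, ∀ n : ℕ, n₀ ≤ n →
    f c n ≤ Real.exp (-(c * n))) : ExpSmall f := by
  obtain ⟨c, hc, n₀, H⟩ := h
  exact ⟨c, hc, eventually_atTop.2 ⟨n₀, H⟩⟩

theorem N_eq {V : Type} [Finite V] (R : Set ℂ) (G : SimpleGraph V) :
    N R G = Pool.Agent.D0H36.LW.cRoots R (Pool.Agent.H207R2.BL.chr G) := rfl

theorem not_root {z : ℂ} (h : ¬ PlanarRoot z) (V : Type) [Finite V] (G : SimpleGraph V)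
    (hG : Pool.Agent.R814.BL.Cl V G) : aeval z (Pool.Agent.H207R2.BL.chr G) ≠ 0 :=
  fun h0 => h ⟨V, inferInstance, G, hG, h0⟩

theorem bl_iff : BirkhoffLewis ↔ ∀ (V : Type) [Finite V] (G : SimpleGraph V), Planar G →
    N RealGeFour G = 0 := by
  classical
  constructor
  · intro h V _ G hG
    unfold N
    rw [Multiset.card_eq_zero, Multiset.filter_eq_nil]
    intro z hz hzR
    obtain ⟨h1, h2⟩ := hzR
    have h3 : z = ((z.re : ℝ) : ℂ) := Complex.ext rfl (by rw [h1, Complex.ofReal_im])
    have h4 : ((P G).map (algebraMap ℝ ℂ)).eval z = 0 := (mem_roots'.1 hz).2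
    rw [h3, eval_map, ← aeval_def] at h4
    have h5 : aeval ((z.re : ℝ) : ℂ) (P G) = (((P G).eval z.re : ℝ) : ℂ) :=
      Pool.Agent.D0H36.LW.aeval_real _ _
    rw [h5] at h4
    have h6 : (P G).eval z.re = 0 := by exact_mod_cast h4
    have h7 := h z.re h2 V G hG
    linarith
  · intro h q hq V _ G hG
    by_contra hcon
    push Not at hcon
    obtain ⟨r, hr, hr0⟩ := Pool.Agent.D0H36.BL.exists_root G hG hq hcon
    have h1 := h V G hG
    unfold N at h1
    rw [Multiset.card_eq_zero, Multiset.filter_eq_nil] at h1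
    refine h1 (r : ℂ) ?_ ⟨Complex.ofReal_im r, by rw [Complex.ofReal_re]; exact hr⟩
    rw [mem_roots']
    refine ⟨?_, ?_⟩
    · have := Pool.Agent.D0H36.BL.chr_ne_zero G
      exact (Polynomial.map_ne_zero_iff (algebraMap ℝ ℂ).injective).2 this
    · show ((P G).map (algebraMap ℝ ℂ)).eval (r : ℂ) = 0
      rw [eval_map, ← aeval_def]
      have h5 : aeval ((r : ℝ) : ℂ) (P G) = (((P G).eval r : ℝ) : ℂ) :=
        Pool.Agent.D0H36.LW.aeval_real _ _
      rw [h5]
      have h6 : (P G).eval r = 0 := hr0
      rw [h6, Complex.ofReal_zero]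

/-- the share of one is one -/
theorem share_one {κ : Model} {n : ℕ} (hn : 1 ≤ n) {p : SimpleGraph (Fin n) → Prop}
    (h : ∀ G, Planar G → p G) : share κ n p = 1 := by
  have hm : ∀ G : SimpleGraph (Fin n), κ.Member G → Planar G :=
    fun G hG => (sub_cls κ).sub _ _ hG
  have h1 : (0 : ℝ) < Nat.card {G : SimpleGraph (Fin n) // κ.Member G} := by
    have h2 := (sub_cls κ).pos hn
    rw [num_eq] at h2
    exact_mod_cast h2
  unfold share
  have h4 : Nat.card {G : SimpleGraph (Fin n) // κ.Member G ∧ p G} =
      Nat.card {G : SimpleGraph (Fin n) // κ.Member G} :=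
    Nat.card_congr (Equiv.subtypeEquivRight (fun G => ⟨fun h' => h'.1, fun h' => ⟨h', h G (hm G h')⟩⟩))
  rw [h4, div_self h1.ne']

theorem root_laws (κ : Model) (R : Set ℂ) (h0 : 0 ∉ R) (h1 : 1 ∉ R)
    (hex : ∃ (V : Type) (_ : Finite V) (G : SimpleGraph V), Planar G ∧ N R G ≠ 0) : RootLaws κ R := by
  have hf := Pool.Agent.D0H36.LW.cRoots_add h0 h1
  have hex' : ∃ (V : Type) (_ : Finite V) (G : SimpleGraph V), Pool.Agent.R814.BL.Cl V G ∧
      Pool.Agent.D0H36.LW.cRoots R (Pool.Agent.H207R2.BL.chr G) ≠ 0 := by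
    obtain ⟨V, hV, G, hG, h⟩ := hex
    refine ⟨V, hV, G, hG, ?_⟩
    rw [← N_eq]
    exact h
  refine ⟨?_, ?_, ?_⟩
  · obtain ⟨c, hc, n₀, H⟩ := Pool.Agent.D0H36.LC.lin' (sub_cls κ) hf hex'
    refine exp_small ⟨c, hc, n₀, fun n hn => ?_⟩
    rw [share_eq]
    simp only [N_eq]
    exact H n hn
  · obtain ⟨C, H⟩ := Pool.Agent.D0H36.LC.spread' (sub_cls κ) hf hex'
    refine ⟨C, fun n hn k => ?_⟩
    rw [share_eq]
    simp only [N_eq]
    exact H n hn k
  · intro V _ G₀ hG₀
    obtain ⟨C, H⟩ := Pool.Agent.D0H36.LC.flat_nat' (sub_cls κ) hf V G₀ hG₀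
    refine ⟨C, fun n hn T => ?_⟩
    rw [share_eq, share_eq]
    simp only [N_eq]
    exact H n hn T

theorem isMul_add {f : ℝ[X] → ℝ} (hf : IsAdditive f) :
    Pool.Agent.D0H36.LW.IsMul (fun p => Multiplicative.ofAdd (f p)) := by
  obtain ⟨S, h1, h2, h3, h4, h5⟩ := hf
  refine ⟨S, h1, h2, h3, h4, fun p hp q hq => ?_⟩
  show Multiplicative.ofAdd (f (p * q)) = _
  rw [h5 p hp q hq, ofAdd_add]

theorem exp_lt {c : ℝ} (hc : 0 < c) {a : ℝ} (ha : 0 < a) :
    ∀ᶠ n : ℕ in atTop, Real.exp (-(c * n)) < a := by
  have h1 : Tendsto (fun n : ℕ => Real.exp (-(c * n))) atTop (nhds 0) := by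
    apply Real.tendsto_exp_neg_atTop_nhds_zero.comp
    exact Tendsto.const_mul_atTop hc tendsto_natCast_atTop_atTop
  exact h1.eventually_lt_const ha

/-- **Theorem.** (P1) Graphs drawn in the plane are `Planar`. (P2) A `Planar` graph has no `K₅` minor and no
`K₃₃` minor. (P3) `P` is the chromatic polynomial.  In the following, `κ` is the model: all planar graphs or
the connected planar graphs.

(1) An additive function `f` of the chromatic polynomials takes the same value for any two connected planar
graphs with the same number of vertices, or there are `δ > 0` and `C` such that it belongs to each interval of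
length `δ` for at most a share `C / √n` of the graphs with `n` vertices.

(2) If moreover `f X = f (X - 1) = 0`, then for each planar graph `G₀` there is `C` such that for each set `T`
the shares of the graphs with `f (P G) ∈ T` and with `f (P G) + f (P G₀) ∈ T` differ by at most `C / √n`.

(3) Let `R` be a set of complex numbers without `0` and `1` which contains a root of a planar graph.
The number `N R G` of the roots in `R` is less than `c n` for at most a share `exp (-c n)`; it takes
each value for at most a share `C / √n`; and for each planar graph `G₀` the distributions of `N R G` and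
`N R G + N R G₀` have the distance at most `C / √n`.

(4) If `z` is not a planar chromatic root, and not real with `Re z ≠ 3/2`, or real and `> 2`, then `log |P(G,z)|`
belongs to each interval of length `1` for at most a share `C / √n` of the graphs.

(5) The Birkhoff-Lewis conjecture holds, or the laws (3) hold for the real roots `≥ 4`.

(6) The Birkhoff-Lewis conjecture holds if and only if for all `c > 0` there are infinitely many `n` such
that more than a share `exp (-c n)` of the graphs with `n` vertices has less than `c n` chromatic roots `≥ 4`.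

(7) The Birkhoff-Lewis conjecture holds if and only if for each `C` there are infinitely many `n`, with some
`k`, such that more than a share `C / √n` of the graphs with `n` vertices has exactly `k` chromatic
roots `≥ 4`. -/
theorem result :
    (∀ (V : Type) (G : SimpleGraph V), Drawn G → Planar G) ∧
    (∀ (V : Type) (G : SimpleGraph V), Planar G → ¬ IsMinor (⊤ : SimpleGraph (Fin 5)) G ∧
      ¬ IsMinor (completeBipartiteGraph (Fin 3) (Fin 3)) G) ∧
    (∀ (V : Type) [Finite V] (G : SimpleGraph V) (k : ℕ),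
      (P G).eval (k : ℝ) = (Nat.card (G.Coloring (Fin k)) : ℝ)) ∧
    ∀ κ : Model,
    (∀ f : ℝ[X] → ℝ, IsAdditive f →
      (∀ (V W : Type) [Finite V] [Finite W] (A : SimpleGraph V) (B : SimpleGraph W), Planar A → Planar B →
        A.Connected → B.Connected → Nat.card V = Nat.card W → f (P A) = f (P B)) ∨
      ∃ δ : ℝ, 0 < δ ∧ ∃ C : ℝ, ∀ n : ℕ, 1 ≤ n → ∀ x : ℝ,
        share κ n (fun G => x ≤ f (P G) ∧ f (P G) < x + δ) ≤ C / Real.sqrt n) ∧
    (∀ f : ℝ[X] → ℝ, IsAdditive f → f X = 0 → f (X - 1) = 0 →
      ∀ (V : Type) [Finite V] (G₀ : SimpleGraph V), Planar G₀ → ∃ C : ℝ, ∀ n : ℕ, 1 ≤ n → ∀ T : Set ℝ,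
        |share κ n (fun G => f (P G) ∈ T) - share κ n (fun G => f (P G) + f (P G₀) ∈ T)| ≤
          C / Real.sqrt n) ∧
    (∀ R : Set ℂ, 0 ∉ R → 1 ∉ R →
      (∃ (V : Type) (_ : Finite V) (G : SimpleGraph V), Planar G ∧ N R G ≠ 0) → RootLaws κ R) ∧
    (∀ z : ℂ, ¬ PlanarRoot z → (z.im ≠ 0 ∧ z.re ≠ 3 / 2) ∨ (z.im = 0 ∧ 2 < z.re) →
      ∃ C : ℝ, ∀ n : ℕ, 1 ≤ n → ∀ x : ℝ, share κ n (fun G => x ≤ Real.log ‖aeval z (P G)‖ ∧
        Real.log ‖aeval z (P G)‖ < x + 1) ≤ C / Real.sqrt n) ∧
    (BirkhoffLewis ∨ RootLaws κ RealGeFour) ∧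
    (BirkhoffLewis ↔ ∀ c : ℝ, 0 < c → ∃ᶠ n : ℕ in atTop,
      Real.exp (-(c * n)) < share κ n (fun G => (N RealGeFour G : ℝ) < c * n)) ∧
    (BirkhoffLewis ↔ ∀ C : ℝ, ∃ᶠ n : ℕ in atTop, ∃ k : ℕ,
      C / Real.sqrt n < share κ n (fun G => N RealGeFour G = k)) := by
  have r0 : (0 : ℂ) ∉ RealGeFour := fun h => by
    have h2 : (4 : ℝ) ≤ (0 : ℂ).re := h.2
    rw [Complex.zero_re] at h2
    norm_num at h2
  have r1 : (1 : ℂ) ∉ RealGeFour := fun h => by
    have h2 : (4 : ℝ) ≤ (1 : ℂ).re := h.2
    rw [Complex.one_re] at h2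
    norm_num at h2
  have hbl : ∀ κ : Model, BirkhoffLewis ∨ RootLaws κ RealGeFour := by
    intro κ
    by_cases h : BirkhoffLewis
    · exact Or.inl h
    · right
      rw [bl_iff] at h
      push Not at h
      obtain ⟨V, hV, G, hG, h1⟩ := h
      exact root_laws κ _ r0 r1 ⟨V, hV, G, hG, h1⟩
  refine ⟨?_, ?_, ?_, fun κ => ⟨?_, ?_, root_laws κ, ?_, hbl κ, ?_, ?_⟩⟩
  · rintro V G ⟨f, γ, h1, h2, h3⟩
    exact ⟨Pool.Agent.Y865.RF.pl V G f γ ⟨h1, h2, h3⟩, Pool.Agent.R814.BL.pl33 V G f γ ⟨h1, h2, h3⟩⟩
  · intro V G h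
    exact Pool.Agent.D0H36.BL.no_minor h
  · intro V _ G k
    exact Pool.Agent.H207R2.BL.chr_spec G k
  · intro f hf
    by_cases ht : Pool.Agent.D0H36.LW.Triv (fun p : ℝ[X] => Multiplicative.ofAdd (f p))
    · left
      intro V W _ _ A B hA hB hA1 hB1 hVW
      have h1 := Pool.Agent.D0H36.LW.triv_conn Pool.Agent.D0H36.LC.hTR (isMul_add hf) ht V W A B hA hB hA1
        hB1 hVW
      exact Multiplicative.ofAdd.injective h1
    · right
      obtain ⟨δ, hδ, C, H⟩ := Pool.Agent.D0H36.LW.t_SPR Pool.Agent.D0H36.LC.hCB _ (isMul_add hf) ht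
      obtain ⟨C', hC', HC⟩ := (sub_cls κ).share_le
      refine ⟨δ, hδ, C' * C, fun n hn x => ?_⟩
      rw [share_eq, mul_div_assoc]
      exact (HC n hn _).trans (mul_le_mul_of_nonneg_left (H n hn x) hC'.le)
  · intro f hf hx hx1 V _ G₀ hG₀
    obtain ⟨C, H⟩ := Pool.Agent.D0H36.LC.sm2' Pool.Agent.D0H36.LC.hTR
      (Pool.Agent.D0H36.LC.sm1' (sub_cls κ) Pool.Agent.D0H36.LC.hCB) _ (isMul_add hf)
      (by show Multiplicative.ofAdd (f X) = 1; rw [hx, ofAdd_zero])
      (by show Multiplicative.ofAdd (f (X - 1)) = 1; rw [hx1, ofAdd_zero]) V G₀ hG₀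
    refine ⟨C, fun n hn T => ?_⟩
    rw [share_eq, share_eq]
    exact H n hn T
  · intro z hz hzz
    have hnt : ¬ Pool.Agent.D0H36.LW.Triv
        (fun p : ℝ[X] => Pool.Agent.D0H36.LW.phase 0 1 (aeval z p)) := by
      rcases hzz with ⟨h1, h2⟩ | ⟨h1, h2⟩
      · exact Pool.Agent.D0H6.LW.t_ARG z h1 h2 (fun V _ G hG => not_root hz V G hG) 0 1
          (Or.inr one_ne_zero)
      · have h4 : z = ((z.re : ℝ) : ℂ) := Complex.ext rfl (by rw [h1, Complex.ofReal_im])
        rw [h4]
        exact Pool.Agent.D0H36.LW.phase_real_nt Pool.Agent.D0H6.LW.size h2 0 one_ne_zero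
    obtain ⟨C, H⟩ := Pool.Agent.D0H36.LC.log_spread' (sub_cls κ)
      (fun V _ G hG => not_root hz V G hG) hnt
    refine ⟨C, fun n hn x => ?_⟩
    rw [share_eq]
    exact H n hn x
  · constructor
    · intro h c hc
      apply Eventually.frequently
      filter_upwards [exp_lt hc one_pos, eventually_ge_atTop 1] with n hn hn1
      rw [share_one hn1 (fun G hG => ?_)]
      · exact hn
      · rw [bl_iff.1 h _ G hG, Nat.cast_zero]
        have : (0 : ℝ) < n := by exact_mod_cast hn1
        positivity
    · intro h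
      rcases hbl κ with h1 | h1
      · exact h1
      · exfalso
        obtain ⟨c, hc, H⟩ := h1.1
        obtain ⟨n, h2, h3⟩ := ((h c hc).and_eventually H).exists
        exact absurd h2 (not_lt.2 h3)
  · constructor
    · intro h C
      apply Eventually.frequently
      have h1 : Tendsto (fun n : ℕ => C / Real.sqrt n) atTop (nhds 0) := by
        apply Tendsto.div_atTop tendsto_const_nhds
        exact Real.tendsto_sqrt_atTop.comp tendsto_natCast_atTop_atTop
      filter_upwards [h1.eventually_lt_const one_pos, eventually_ge_atTop 1] with n hn hn1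
      refine ⟨0, ?_⟩
      rw [share_one hn1 (fun G hG => bl_iff.1 h _ G hG)]
      exact hn
    · intro h
      rcases hbl κ with h1 | h1
      · exact h1
      · obtain ⟨C, H⟩ := h1.2.1
        exfalso
        obtain ⟨n, ⟨k, hk⟩, hn⟩ := ((h C).and_eventually (eventually_ge_atTop 1)).exists
        exact absurd (H n hn k) (not_le.2 hk)

end Pool.Agent.Results.MP_0d034c_co.AdditiveLaws
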