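import Pool.Agent.D0H36.LC.Cor
import Pool.Agent.D0H52.LW.Conn

/-!
# Multiplicative functions of the chromatic polynomial of a random planar graph

Authors: helper36 (statement, exchange of the contents of the sites, conclusions), helper12, helper28, helper5,
helper6, helper70, helper81, helper85, helper52 (modules), helper22, helper70, helper73 (modules on the sites and
their number).

We consider the labelled planar graphs, or the connected labelled planar graphs, with `n` vertices, all of them
with the same probability.  `P(G,q)` is the chromatic polynomial.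

(1) Each unitary character `φ` of the chromatic polynomials takes the same value for all connected planar
graphs with the same number of vertices, or its mean over the planar graphs with `n` vertices is
`O (exp (-c n))`.  (2) A character with values in a finite group, trivial on `X` and `X - 1`, is
equidistributed on the set of its values.

(3) SIGNS.  Let `Q` be a finite set of numbers `q > 1` which are not roots of planar graphs.  Each pattern of
signs on `Q` which occurs for one planar graph occurs for the share `1/s + O (exp (-c n))` of them, `s` the number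
of the patterns.  (4) For one point: `P(G,q) > 0` for ALL planar graphs or for exactly HALF of them, and the
second for `q < 3`.  (5) So the Birkhoff-Lewis inequality `P(G,q) > 0` holds for all planar graphs if and only
if it holds for more than one half of them, for infinitely many `n`.

(6) The number of the roots in a set `R` of complex numbers (without `0`, `1`) is equidistributed on the possible
residue classes mod `m`.  (7) The mean of `(P(G,z)/|P(G,z)|)^k |P(G,z)|^(it)` is exponentially small.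

Proof.  A site of `G` is a set of `h` vertices with exactly one edge to the other vertices, on which `G` looks
like one of two fixed 2-edge-connected planar graphs `A`, `B`.  Different sites are disjoint; all but a share
`exp (-c n)` of the planar graphs have `≥ c n` sites.  For a fixed set of `s` sites the contents can be exchanged
independently, and each exchange multiplies `φ (P(G))` by `w` or `1/w`, `w = φ (P(B)) / φ (P(A))`.  So the mean of
`φ` over these graphs is at most `(|1 + w| / 2)^s`.  If `φ (P(A)) = φ (P(B))` for all `A`, `B` then `φ` is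
`φ(X) φ(X-1)^(n-1)` on the connected planar graphs (book graphs and the bow tie, bridges).  The share of the
connected graphs is at least a constant.
-/

set_option autoImplicit false

namespace Pool.Agent.Results.MP_0d034c_co.CharacterLaws

open Polynomial Filter

/-- the vertices `u` and `v` are joined by a walk inside the set `S` of vertices -/
def Joined {V : Type} (G : SimpleGraph V) (S : Set V) (u v : V) : Prop :=
  ∃ w : G.Walk u v, ∀ z ∈ w.support, z ∈ S

/-- five vertices are joined pairwise by walks, walks belonging to disjoint pairs being disjoint -/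
def WeakK5 {V : Type} (G : SimpleGraph V) : Prop :=
  ∃ (x : Fin 5 → V) (A : Fin 5 → Fin 5 → Set V),
    (∀ a b, a < b → Joined G (A a b) (x a) (x b)) ∧
    (∀ a b c d, a < b → c < d → a ≠ c → a ≠ d → b ≠ c → b ≠ d → Disjoint (A a b) (A c d))

/-- three vertices are joined to three vertices by walks, walks belonging to disjoint pairs being
disjoint -/
def WeakK33 {V : Type} (G : SimpleGraph V) : Prop :=
  ∃ (x y : Fin 3 → V) (A : Fin 3 → Fin 3 → Set V),
    (∀ a b, Joined G (A a b) (x a) (y b)) ∧
    (∀ a b c d, a ≠ c → b ≠ d → Disjoint (A a b) (A c d))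

/-- Planar graphs: neither of the two configurations.  Graphs drawn in the plane have neither
(van Kampen), and a graph with neither has no `K₅` minor and no `K₃₃` minor, see (P1), (P2); so a finite
graph is `Planar` if and only if it is planar, by the theorem of Wagner (which is not used). -/
def Planar {V : Type} (G : SimpleGraph V) : Prop := ¬ WeakK5 G ∧ ¬ WeakK33 G

/-- `G` can be drawn in the plane with non-crossing arcs (as in the frozen statement) -/
def Drawn {V : Type} (G : SimpleGraph V) : Prop :=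
  ∃ (f : V → ℝ × ℝ) (γ : V → V → ℝ → ℝ × ℝ),
    Function.Injective f ∧
    (∀ u v : V, G.Adj u v →
      ContinuousOn (γ u v) (Set.Icc (0:ℝ) 1) ∧ Set.InjOn (γ u v) (Set.Icc (0:ℝ) 1) ∧
      γ u v 0 = f u ∧ γ u v 1 = f v ∧
      ∀ t ∈ Set.Ioo (0:ℝ) 1, ∀ w : V, γ u v t ≠ f w) ∧
    (∀ u v u' v' : V, G.Adj u v → G.Adj u' v' → s(u, v) ≠ s(u', v') →
      ∀ t ∈ Set.Ioo (0:ℝ) 1, ∀ t' ∈ Set.Ioo (0:ℝ) 1, γ u v t ≠ γ u' v' t')

/-- `K` is a minor of `G`: there are disjoint connected sets `β w` of vertices of `G`, for the vertices `w` of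
`K`, joined by an edge of `G` whenever the vertices are adjacent in `K` -/
def IsMinor {V W : Type} (K : SimpleGraph W) (G : SimpleGraph V) : Prop :=
  ∃ β : W → Set V, (∀ w, (G.induce (β w)).Connected) ∧ (∀ w w', w ≠ w' → Disjoint (β w) (β w')) ∧
    ∀ w w', K.Adj w w' → ∃ x ∈ β w, ∃ y ∈ β w', G.Adj x y

/-- the chromatic polynomial, see (P3) -/
noncomputable def P {V : Type} [Finite V] (G : SimpleGraph V) : ℝ[X] := Pool.Agent.H207R2.BL.chr G

/-- `P(G,q) > 0` for all finite planar graphs -/
def AllPositive (q : ℝ) : Prop :=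
  ∀ (V : Type) [Finite V] (G : SimpleGraph V), Planar G → 0 < (P G).eval q

/-- the complex number `z` is a root of the chromatic polynomial of a finite planar graph -/
def PlanarRoot (z : ℂ) : Prop :=
  ∃ (V : Type) (_ : Finite V) (G : SimpleGraph V), Planar G ∧ aeval z (P G) = 0

/-- the two models: all planar graphs, the connected planar graphs -/
inductive Model
  | all
  | connected

/-- the graphs of the model -/
def Model.Member (κ : Model) {V : Type} (G : SimpleGraph V) : Prop :=
  match κ with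
  | .all => Planar G
  | .connected => Planar G ∧ G.Connected

/-- the share of the graphs with the property `p` among the graphs of the model `κ` with the vertices
`0, …, n - 1` -/
noncomputable def share (κ : Model) (n : ℕ) (p : SimpleGraph (Fin n) → Prop) : ℝ :=
  (Nat.card {G : SimpleGraph (Fin n) // κ.Member G ∧ p G} : ℝ) /
    (Nat.card {G : SimpleGraph (Fin n) // κ.Member G} : ℝ)

open Classical in
/-- the mean value of `F` over the graphs of the model `κ` with the vertices `0, …, n - 1` -/
noncomputable def mean (κ : Model) (n : ℕ) (F : SimpleGraph (Fin n) → ℂ) : ℂ :=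
  (∑ G : SimpleGraph (Fin n) with κ.Member G, F G) /
    (Nat.card {G : SimpleGraph (Fin n) // κ.Member G} : ℂ)

/-- `f c n ≤ exp (-c n)` for some `c > 0` and all large `n` -/
def ExpSmall (f : ℝ → ℕ → ℝ) : Prop :=
  ∃ c : ℝ, 0 < c ∧ ∀ᶠ n : ℕ in atTop, f c n ≤ Real.exp (-(c * n))

/-- `φ` is multiplicative on a set of polynomials which is closed under products and contains `1`, `X`, `X - 1`,
`X - 2` and the chromatic polynomials of the finite planar graphs -/
def IsCharacter {M : Type} [CommGroup M] (φ : ℝ[X] → M) : Prop :=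
  ∃ S : Submonoid ℝ[X], X ∈ S ∧ X - 1 ∈ S ∧ X - 2 ∈ S ∧
    (∀ (V : Type) [Finite V] (G : SimpleGraph V), Planar G → P G ∈ S) ∧
    ∀ p ∈ S, ∀ q ∈ S, φ (p * q) = φ p * φ q

/-- the values of `φ` at the chromatic polynomials of the finite planar graphs -/
def Values {M : Type} (φ : ℝ[X] → M) : Set M :=
  {a | ∃ (V : Type) (_ : Finite V) (G : SimpleGraph V), Planar G ∧ φ (P G) = a}

/-- the members of `Q` at which the chromatic polynomial of `G` is negative -/
noncomputable def negative {V : Type} [Finite V] (Q : Finset ℝ) (G : SimpleGraph V) : Finset ℝ :=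
  Q.filter (fun q => (P G).eval q < 0)

/-- the sign patterns on `Q` of the chromatic polynomials of the finite planar graphs -/
def Patterns (Q : Finset ℝ) : Set (Finset ℝ) :=
  {T | ∃ (V : Type) (_ : Finite V) (G : SimpleGraph V), Planar G ∧ negative Q G = T}

open Classical in
/-- the number of the complex chromatic roots of `G` in `R`, with multiplicities -/
noncomputable def N {V : Type} [Finite V] (R : Set ℂ) (G : SimpleGraph V) : ℕ :=
  (((P G).map (algebraMap ℝ ℂ)).roots.filter (fun z => z ∈ R)).card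

/-- the character `(w / |w|)^k |w|^(i t)` of the multiplicative group of the complex numbers -/
noncomputable def phase (k : ℤ) (t : ℝ) (w : ℂ) : ℂ := Circle.exp (k * w.arg + t * Real.log ‖w‖)

/-- the class of the graphs of the model -/
def cls (κ : Model) (V : Type) (G : SimpleGraph V) : Prop := κ.Member G

theorem sub_cls (κ : Model) : Pool.Agent.D0H36.LC.Sub (cls κ) := by
  cases κ with
  | all => exact Pool.Agent.D0H36.LC.sub_all
  | connected => exact Pool.Agent.D0H36.LC.sub_con Pool.Agent.D0H52.LW.t_CONN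

theorem share_eq (κ : Model) (n : ℕ) (p : SimpleGraph (Fin n) → Prop) :
    share κ n p = Pool.Agent.D0H36.BL.share (cls κ) n p := by
  unfold share Pool.Agent.D0H36.BL.share Pool.Agent.D0H36.BL.num Pool.Agent.D0H36.BL.cnt
  congr 2
  exact Nat.card_congr (Equiv.subtypeEquivRight (fun G => ⟨fun h => ⟨h, trivial⟩, fun h => h.1⟩))

theorem num_eq (κ : Model) (n : ℕ) : Pool.Agent.D0H36.BL.num (cls κ) n =
    Nat.card {G : SimpleGraph (Fin n) // κ.Member G} :=
  Nat.card_congr (Equiv.subtypeEquivRight (fun G => ⟨fun h => h.1, fun h => ⟨h, trivial⟩⟩))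

theorem mean_eq (κ : Model) (n : ℕ) (F : SimpleGraph (Fin n) → ℂ) :
    mean κ n F = Pool.Agent.D0H36.LC.mean (cls κ) n F := by
  unfold mean Pool.Agent.D0H36.LC.mean
  rw [num_eq]
  rfl

theorem exp_small {f : ℝ → ℕ → ℝ} (h : ∃ c : ℝ, 0 < c ∧ ∃ n₀ : ℕ, ∀ n : ℕ, n₀ ≤ n →
    f c n ≤ Real.exp (-(c * n))) : ExpSmall f := by
  obtain ⟨c, hc, n₀, H⟩ := h
  exact ⟨c, hc, eventually_atTop.2 ⟨n₀, H⟩⟩

theorem N_eq {V : Type} [Finite V] (R : Set ℂ) (G : SimpleGraph V) :
    N R G = Pool.Agent.D0H36.LW.cRoots R (Pool.Agent.H207R2.BL.chr G) := rfl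

theorem not_root {z : ℂ} (h : ¬ PlanarRoot z) (V : Type) [Finite V] (G : SimpleGraph V)
    (hG : Pool.Agent.R814.BL.Cl V G) : aeval z (Pool.Agent.H207R2.BL.chr G) ≠ 0 :=
  fun h0 => h ⟨V, inferInstance, G, hG, h0⟩

theorem root_alg {z : ℂ} (h : PlanarRoot z) : IsAlgebraic ℚ z := by
  obtain ⟨V, hV, G, _, h1⟩ := h
  apply (IsFractionRing.isAlgebraic_iff ℤ ℚ ℂ).1
  refine ⟨(Pool.Agent.H207R2.BL.exists_chrom G).choose, ?_, ?_⟩
  · intro h0
    have h2 := Pool.Agent.D0H36.BL.chr_ne_zero G
    unfold Pool.Agent.H207R2.BL.chr at h2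
    rw [h0, Polynomial.map_zero] at h2
    exact h2 rfl
  · unfold P Pool.Agent.H207R2.BL.chr at h1
    rw [aeval_def, eval₂_map] at h1
    have e : algebraMap ℤ ℂ = (algebraMap ℝ ℂ).comp (Int.castRingHom ℝ) := RingHom.ext_int _ _
    rw [aeval_def, e]
    exact h1

/-- the share of one is one -/
theorem share_one {κ : Model} {n : ℕ} (hn : 1 ≤ n) {p : SimpleGraph (Fin n) → Prop}
    (h : ∀ G, Planar G → p G) : share κ n p = 1 := by
  have hm : ∀ G : SimpleGraph (Fin n), κ.Member G → Planar G :=
    fun G hG => (sub_cls κ).sub _ _ hG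
  have h1 : (0 : ℝ) < Nat.card {G : SimpleGraph (Fin n) // κ.Member G} := by
    have h2 := (sub_cls κ).pos hn
    rw [num_eq] at h2
    exact_mod_cast h2
  unfold share
  have h4 : Nat.card {G : SimpleGraph (Fin n) // κ.Member G ∧ p G} =
      Nat.card {G : SimpleGraph (Fin n) // κ.Member G} :=
    Nat.card_congr (Equiv.subtypeEquivRight (fun G => ⟨fun h' => h'.1, fun h' => ⟨h', h G (hm G h')⟩⟩))
  rw [h4, div_self h1.ne']

theorem share_congr {κ : Model} {n : ℕ} {p p' : SimpleGraph (Fin n) → Prop}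
    (h : ∀ G, κ.Member G → (p G ↔ p' G)) : share κ n p = share κ n p' := by
  unfold share
  have h4 : Nat.card {G : SimpleGraph (Fin n) // κ.Member G ∧ p G} =
      Nat.card {G : SimpleGraph (Fin n) // κ.Member G ∧ p' G} :=
    Nat.card_congr (Equiv.subtypeEquivRight (fun G =>
      ⟨fun h' => ⟨h'.1, (h G h'.1).1 h'.2⟩, fun h' => ⟨h'.1, (h G h'.1).2 h'.2⟩⟩))
  rw [h4]

theorem member_planar {κ : Model} {n : ℕ} (G : SimpleGraph (Fin n)) (h : κ.Member G) : Planar G :=
  (sub_cls κ).sub _ _ h

theorem real_root {q : ℝ} {V : Type} [Finite V] (G : SimpleGraph V) :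
    aeval (q : ℂ) (P G) = 0 ↔ (P G).eval q = 0 := by
  have h5 : aeval ((q : ℝ) : ℂ) (P G) = (((P G).eval q : ℝ) : ℂ) :=
    Pool.Agent.D0H36.LW.aeval_real _ _
  rw [h5, Complex.ofReal_eq_zero]

theorem signs (κ : Model) (Q : Finset ℝ) (hQ : ∀ q ∈ Q, 1 < q ∧ ¬ PlanarRoot (q : ℂ)) (T : Finset ℝ)
    (hT : T ∈ Patterns Q) :
    ExpSmall (fun _ n => |share κ n (fun G => negative Q G = T) - 1 / ((Patterns Q).ncard : ℝ)|) := by
  obtain ⟨c, hc, n₀, H⟩ := Pool.Agent.D0H36.LC.sign_law' (Pool.Agent.D0H36.LC.fg' (sub_cls κ)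
    Pool.Agent.D0H36.LC.hTR) Q (fun q hq => ⟨(hQ q hq).1, fun V _ G hG h0 => (hQ q hq).2
      ⟨V, inferInstance, G, hG, (real_root G).2 h0⟩⟩) T hT
  refine exp_small ⟨c, hc, n₀, fun n hn => ?_⟩
  rw [share_eq]
  exact H n hn

theorem fifty (κ : Model) {q : ℝ} (hq : 1 < q) (h : ¬ PlanarRoot (q : ℂ)) :
    AllPositive q ∨ ExpSmall (fun _ n => |share κ n (fun G => 0 < (P G).eval q) - 1 / 2|) := by
  classical
  by_cases hA : AllPositive q
  · exact Or.inl hA
  right
  have hnz : ∀ (V : Type) [Finite V] (G : SimpleGraph V), Planar G → (P G).eval q ≠ 0 :=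
    fun V _ G hG h0 => h ⟨V, inferInstance, G, hG, (real_root G).2 h0⟩
  have hneg : ∃ (V : Type) (_ : Finite V) (G : SimpleGraph V), Planar G ∧ (P G).eval q < 0 := by
    unfold AllPositive at hA
    push Not at hA
    obtain ⟨V, hV, G, hG, h1⟩ := hA
    exact ⟨V, hV, G, hG, lt_of_le_of_ne h1 (hnz V G hG)⟩
  have h0 : (∅ : Finset ℝ) ∈ Patterns {q} := by
    refine ⟨Empty, inferInstance, ⊥, Pool.Agent.D0H36.BL.cl_small (by simp) _, ?_⟩
    unfold negative
    rw [Finset.filter_eq_empty_iff]
    intro x _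
    have h1 : P (⊥ : SimpleGraph Empty) = 1 := Pool.Agent.D0H36.LW.chr_empty inferInstance _
    rw [h1, eval_one]
    norm_num
  have h1 : ({q} : Finset ℝ) ∈ Patterns {q} := by
    obtain ⟨V, hV, G, hG, h2⟩ := hneg
    refine ⟨V, hV, G, hG, ?_⟩
    unfold negative
    rw [Finset.filter_eq_self]
    intro x hx
    rw [Finset.mem_singleton.1 hx]
    exact h2
  have hP : Patterns {q} = {∅, {q}} := by
    ext T
    constructor
    · rintro ⟨V, hV, G, hG, rfl⟩
      have h3 : negative {q} G ⊆ {q} := Finset.filter_subset _ _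
      exact Finset.subset_singleton_iff.1 h3
    · rintro (rfl | rfl)
      · exact h0
      · exact h1
  have hcard : (Patterns {q}).ncard = 2 := by
    rw [hP]
    exact Set.ncard_pair (Finset.singleton_ne_empty q).symm
  obtain ⟨c, hc, H⟩ := signs κ {q} (fun x hx => by rw [Finset.mem_singleton.1 hx]; exact ⟨hq, h⟩) ∅ h0
  refine ⟨c, hc, H.mono (fun n hn => ?_)⟩
  rw [hcard] at hn
  have h3 : share κ n (fun G => 0 < (P G).eval q) = share κ n (fun G => negative {q} G = ∅) := by
    apply share_congr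
    intro G hG
    unfold negative
    rw [Finset.filter_eq_empty_iff]
    constructor
    · intro h4 x hx
      rw [Finset.mem_singleton.1 hx]
      exact not_lt.2 h4.le
    · intro h4
      have h5 := h4 (Finset.mem_singleton_self q)
      exact lt_of_le_of_ne (not_lt.1 h5) (hnz _ G (member_planar G hG)).symm
  have hn' : |share κ n (fun G => negative {q} G = ∅) - 1 / ((2 : ℕ) : ℝ)| ≤ Real.exp (-(c * n)) := hn
  show |share κ n (fun G => 0 < (P G).eval q) - 1 / 2| ≤ Real.exp (-(c * n))
  rw [h3]
  exact_mod_cast hn'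

theorem one_three {q : ℝ} (hq : 1 < q) (hq3 : q < 3) (h : ¬ PlanarRoot (q : ℂ)) : ¬ AllPositive q := by
  intro hA
  rcases lt_trichotomy q 2 with h2 | h2 | h2
  · have h3 := hA (Fin 3) (Pool.Agent.D0H36.BL.book 3) (Pool.Agent.D0H36.BL.hBK 3 le_rfl).1
    have h4 : P (Pool.Agent.D0H36.BL.book 3) = X * (X - 1) * (X - 2) ^ (3 - 2) :=
      Pool.Agent.D0H36.LC.hBW.2 3 (by norm_num)
    rw [h4] at h3
    simp only [eval_mul, eval_pow, eval_sub, eval_X, eval_one, eval_ofNat] at h3
    norm_num at h3
    have h5 : 0 < q * (q - 1) := mul_pos (by linarith) (by linarith)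
    nlinarith
  · apply h
    refine ⟨Fin 3, inferInstance, Pool.Agent.D0H36.BL.book 3, (Pool.Agent.D0H36.BL.hBK 3 le_rfl).1, ?_⟩
    rw [real_root]
    have h4 : P (Pool.Agent.D0H36.BL.book 3) = X * (X - 1) * (X - 2) ^ (3 - 2) :=
      Pool.Agent.D0H36.LC.hBW.2 3 (by norm_num)
    rw [h4, h2]
    simp
  · have h3 := hA (Fin 4) ⊤ (Pool.Agent.D0H36.BL.cl_small (by simp) ⊤)
    have h4 : (P (⊤ : SimpleGraph (Fin 4))).eval q = q * (q - 1) * (q - 2) * (q - 3) :=
      Pool.Agent.D0H36.BL.chr_K4 q
    rw [h4] at h3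
    have h1 : 0 < q * (q - 1) * (q - 2) := by
      have : 0 < q := by linarith
      have : 0 < q - 1 := by linarith
      have : 0 < q - 2 := by linarith
      positivity
    nlinarith

theorem root_small (κ : Model) {q : ℝ} (hq : 1 < q) (h : PlanarRoot (q : ℂ)) :
    ExpSmall (fun _ n => share κ n (fun G => 0 < (P G).eval q)) := by
  classical
  have h0 : (0 : ℂ) ∉ ({(q : ℂ)} : Set ℂ) := by
    rw [Set.mem_singleton_iff]
    intro h1
    have : (0 : ℝ) = q := by exact_mod_cast h1
    linarith
  have h1 : (1 : ℂ) ∉ ({(q : ℂ)} : Set ℂ) := by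
    rw [Set.mem_singleton_iff]
    intro h1
    have : (1 : ℝ) = q := by exact_mod_cast h1
    linarith
  have hf := Pool.Agent.D0H36.LW.cRoots_add h0 h1
  have key : ∀ (V : Type) [Finite V] (G : SimpleGraph V),
      Pool.Agent.D0H36.LW.cRoots {(q : ℂ)} (Pool.Agent.H207R2.BL.chr G) = 0 ↔ (P G).eval q ≠ 0 := by
    intro V _ G
    have hne : (P G).map (algebraMap ℝ ℂ) ≠ 0 :=
      (Polynomial.map_ne_zero_iff (algebraMap ℝ ℂ).injective).2 (Pool.Agent.D0H36.BL.chr_ne_zero G)
    rw [← N_eq]
    unfold N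
    rw [Multiset.card_eq_zero, Multiset.filter_eq_nil]
    constructor
    · intro h2 h3
      refine h2 (q : ℂ) ?_ rfl
      rw [mem_roots']
      refine ⟨hne, ?_⟩
      show ((P G).map (algebraMap ℝ ℂ)).eval (q : ℂ) = 0
      rw [eval_map, ← aeval_def]
      exact (real_root G).2 h3
    · intro h2 z hz hzq
      rw [Set.mem_singleton_iff] at hzq
      apply h2
      have h4 : ((P G).map (algebraMap ℝ ℂ)).eval z = 0 := (mem_roots'.1 hz).2
      rw [hzq, eval_map, ← aeval_def] at h4
      exact (real_root G).1 h4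
  obtain ⟨V, hV, G, hG, h2⟩ := h
  obtain ⟨c, hc, n₀, H⟩ := Pool.Agent.D0H36.LC.lin' (sub_cls κ) hf ⟨V, hV, G, hG, fun h3 =>
    (key V G).1 h3 ((real_root G).1 h2)⟩
  refine exp_small ⟨c, hc, max n₀ 1, fun n hn => ?_⟩
  have hn1 : 1 ≤ n := (le_max_right _ _).trans hn
  refine le_trans ?_ (H n ((le_max_left _ _).trans hn))
  rw [share_eq]
  apply Pool.Agent.D0H36.BL.share_mono
  intro K _ hK
  have h3 : Pool.Agent.D0H36.LW.cRoots {(q : ℂ)} (Pool.Agent.H207R2.BL.chr K) = 0 :=
    (key _ K).2 (ne_of_gt hK)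
  rw [h3, Nat.cast_zero]
  have : (0 : ℝ) < n := by exact_mod_cast hn1
  positivity

theorem exp_lt {c : ℝ} (hc : 0 < c) {a : ℝ} (ha : 0 < a) :
    ∀ᶠ n : ℕ in atTop, Real.exp (-(c * n)) < a := by
  have h1 : Tendsto (fun n : ℕ => Real.exp (-(c * n))) atTop (nhds 0) := by
    apply Real.tendsto_exp_neg_atTop_nhds_zero.comp
    exact Tendsto.const_mul_atTop hc tendsto_natCast_atTop_atTop
  exact h1.eventually_lt_const ha

/-- **Theorem.** (P1) Graphs drawn in the plane are `Planar`. (P2) A `Planar` graph has no `K₅` minor and no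
`K₃₃` minor. (P3) `P` is the chromatic polynomial.  (P4) The roots of the chromatic polynomials are
algebraic numbers.  In the following, `κ` is the model: all planar graphs or the connected planar graphs.

(1) A unitary character `φ` of the chromatic polynomials takes the same value for any two connected planar
graphs with the same number of vertices, or its mean over the graphs with `n` vertices is at most
`exp (-c n)` for large `n`.

(2) A character with values in a finite commutative group, with the value `1` for `X` and `X - 1`, takes each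
of its values for a share of the graphs with `n` vertices which differs by at most `exp (-c n)` from the inverse
of the number of its values.

(3) Let `Q` be a finite set of real numbers `q > 1` which are not planar chromatic roots.  Each pattern of
signs on `Q` of the chromatic polynomial of one planar graph occurs for a share of the graphs with `n`
vertices which differs by at most `exp (-c n)` from the inverse of the number of the patterns.

(4) If `q > 1` is not a planar chromatic root, then `P(G,q) > 0` for all planar graphs, or for a share of the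
graphs with `n` vertices which differs by at most `exp (-c n)` from `1/2`; the second if `q < 3`.

(5) For `q > 1`, `P(G,q) > 0` for all planar graphs if and only if for all `c > 0` the share of the graphs with
`P(G,q) > 0` is larger than `1/2 + exp (-c n)` for infinitely many `n`.

(6) Let `R` be a set of complex numbers without `0` and `1`, and `m ≥ 1`.  There is a divisor `d` of `m` which
divides the number `N R G` of the roots in `R` for all planar `G`, such that for `d ∣ r` the share of the graphs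
with `N R G ≡ r mod m` differs by at most `exp (-c n)` from `d / m`.

(7) If `z` is not a planar chromatic root, the mean of `(P(G,z)/|P(G,z)|)^k |P(G,z)|^(i t)` has at most the
absolute value `exp (-c n)`, for all `(k,t) ≠ (0,0)` if `z` is not real and `Re z ≠ 3/2`, and for `t ≠ 0` if
`z > 2` is real. -/
theorem result :
    (∀ (V : Type) (G : SimpleGraph V), Drawn G → Planar G) ∧
    (∀ (V : Type) (G : SimpleGraph V), Planar G → ¬ IsMinor (⊤ : SimpleGraph (Fin 5)) G ∧
      ¬ IsMinor (completeBipartiteGraph (Fin 3) (Fin 3)) G) ∧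
    (∀ (V : Type) [Finite V] (G : SimpleGraph V) (k : ℕ),
      (P G).eval (k : ℝ) = (Nat.card (G.Coloring (Fin k)) : ℝ)) ∧
    (∀ z : ℂ, PlanarRoot z → IsAlgebraic ℚ z) ∧
    ∀ κ : Model,
    (∀ φ : ℝ[X] → Circle, IsCharacter φ →
      (∀ (V W : Type) [Finite V] [Finite W] (A : SimpleGraph V) (B : SimpleGraph W), Planar A → Planar B →
        A.Connected → B.Connected → Nat.card V = Nat.card W → φ (P A) = φ (P B)) ∨
      ExpSmall (fun _ n => ‖mean κ n (fun G => (φ (P G) : ℂ))‖)) ∧
    (∀ (M : Type) [CommGroup M] [Finite M] (φ : ℝ[X] → M), IsCharacter φ → φ X = 1 → φ (X - 1) = 1 →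
      ∀ a ∈ Values φ,
        ExpSmall (fun _ n => |share κ n (fun G => φ (P G) = a) - 1 / ((Values φ).ncard : ℝ)|)) ∧
    (∀ Q : Finset ℝ, (∀ q ∈ Q, 1 < q ∧ ¬ PlanarRoot (q : ℂ)) → ∀ T ∈ Patterns Q,
      ExpSmall (fun _ n => |share κ n (fun G => negative Q G = T) - 1 / ((Patterns Q).ncard : ℝ)|)) ∧
    (∀ q : ℝ, 1 < q → ¬ PlanarRoot (q : ℂ) →
      (AllPositive q ∨ ExpSmall (fun _ n => |share κ n (fun G => 0 < (P G).eval q) - 1 / 2|)) ∧
      (q < 3 → ExpSmall (fun _ n => |share κ n (fun G => 0 < (P G).eval q) - 1 / 2|))) ∧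
    (∀ q : ℝ, 1 < q → (AllPositive q ↔ ∀ c : ℝ, 0 < c → ∃ᶠ n : ℕ in atTop,
      1 / 2 + Real.exp (-(c * n)) < share κ n (fun G => 0 < (P G).eval q))) ∧
    (∀ R : Set ℂ, 0 ∉ R → 1 ∉ R → ∀ m : ℕ, 1 ≤ m → ∃ d : ℕ, d ∣ m ∧
      (∀ (V : Type) [Finite V] (G : SimpleGraph V), Planar G → d ∣ N R G) ∧
      ∀ r : ℕ, d ∣ r → ExpSmall (fun _ n => |share κ n (fun G => N R G ≡ r [MOD m]) - (d : ℝ) / m|)) ∧
    (∀ z : ℂ, ¬ PlanarRoot z → ∀ (k : ℤ) (t : ℝ),
      (z.im ≠ 0 ∧ z.re ≠ 3 / 2 ∧ (k ≠ 0 ∨ t ≠ 0)) ∨ (z.im = 0 ∧ 2 < z.re ∧ t ≠ 0) →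
      ExpSmall (fun _ n => ‖mean κ n (fun G => phase k t (aeval z (P G)))‖)) := by
  have hnt : ∀ (z : ℂ), ¬ PlanarRoot z → ∀ (k : ℤ) (t : ℝ),
      (z.im ≠ 0 ∧ z.re ≠ 3 / 2 ∧ (k ≠ 0 ∨ t ≠ 0)) ∨ (z.im = 0 ∧ 2 < z.re ∧ t ≠ 0) →
      ¬ Pool.Agent.D0H36.LW.Triv (fun p : ℝ[X] => Pool.Agent.D0H36.LW.phase k t (aeval z p)) := by
    rintro z hz k t (⟨h1, h2, h3⟩ | ⟨h1, h2, h3⟩)
    · exact Pool.Agent.D0H6.LW.t_ARG z h1 h2 (fun V _ G hG => not_root hz V G hG) k t h3
    · have h4 : z = ((z.re : ℝ) : ℂ) := Complex.ext rfl (by rw [h1, Complex.ofReal_im])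
      rw [h4]
      exact Pool.Agent.D0H36.LW.phase_real_nt Pool.Agent.D0H6.LW.size h2 k h3
  refine ⟨?_, ?_, ?_, fun z hz => root_alg hz, fun κ => ⟨?_, ?_, signs κ, ?_, ?_, ?_, ?_⟩⟩
  · rintro V G ⟨f, γ, h1, h2, h3⟩
    exact ⟨Pool.Agent.Y865.RF.pl V G f γ ⟨h1, h2, h3⟩, Pool.Agent.R814.BL.pl33 V G f γ ⟨h1, h2, h3⟩⟩
  · intro V G h
    exact Pool.Agent.D0H36.BL.no_minor h
  · intro V _ G k
    exact Pool.Agent.H207R2.BL.chr_spec G k
  · intro φ hφ
    by_cases ht : Pool.Agent.D0H36.LW.Triv φ
    · left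
      intro V W _ _ A B hA hB hA1 hB1 hVW
      exact Pool.Agent.D0H36.LW.triv_conn Pool.Agent.D0H36.LC.hTR hφ ht V W A B hA hB hA1 hB1 hVW
    · right
      obtain ⟨c, hc, n₀, H⟩ := Pool.Agent.D0H36.LC.uni_law' (sub_cls κ) φ hφ ht
      refine exp_small ⟨c, hc, n₀, fun n hn => ?_⟩
      rw [mean_eq]
      exact H n hn
  · intro M _ _ φ hφ hx hx1 a ha
    obtain ⟨c, hc, n₀, H⟩ := Pool.Agent.D0H36.LC.fg' (sub_cls κ) Pool.Agent.D0H36.LC.hTR M φ hφ hx hx1 a ha
    refine exp_small ⟨c, hc, n₀, fun n hn => ?_⟩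
    rw [share_eq]
    exact H n hn
  · intro q hq hr
    refine ⟨fifty κ hq hr, fun hq3 => ?_⟩
    exact (fifty κ hq hr).resolve_left (one_three hq hq3 hr)
  · intro q hq
    constructor
    · intro h c hc
      apply Eventually.frequently
      filter_upwards [exp_lt hc (by norm_num : (0 : ℝ) < 1 / 2), eventually_ge_atTop 1] with n hn hn1
      rw [share_one hn1 (fun G hG => h (Fin n) G hG)]
      linarith
    · intro h
      by_contra hcon
      by_cases hr : PlanarRoot (q : ℂ)
      · obtain ⟨c, hc, H⟩ := root_small κ hq hr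
        obtain ⟨n, h1, h2⟩ := ((h c hc).and_eventually H).exists
        linarith
      · rcases fifty κ hq hr with hA | ⟨c, hc, H⟩
        · exact hcon hA
        · obtain ⟨n, h1, h2⟩ := ((h c hc).and_eventually H).exists
          have h3 := (abs_le.1 h2).2
          linarith
  · intro R h0 h1 m hm
    obtain ⟨d, hd, hd1, hd2⟩ := Pool.Agent.D0H36.LC.mod_law' (Pool.Agent.D0H36.LC.fg' (sub_cls κ)
      Pool.Agent.D0H36.LC.hTR) (Pool.Agent.D0H36.LW.cRoots_add h0 h1) hm
    refine ⟨d, hd, fun V _ G hG => ?_, fun r hr => ?_⟩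
    · rw [N_eq]
      exact hd1 V G hG
    · obtain ⟨c, hc, n₀, H⟩ := hd2 r hr
      refine exp_small ⟨c, hc, n₀, fun n hn => ?_⟩
      rw [share_eq]
      simp only [N_eq]
      exact H n hn
  · intro z hz k t hkt
    obtain ⟨c, hc, n₀, H⟩ := Pool.Agent.D0H36.LC.phase_law (sub_cls κ)
      (fun V _ G hG => not_root hz V G hG) (hnt z hz k t hkt)
    refine exp_small ⟨c, hc, n₀, fun n hn => ?_⟩
    rw [mean_eq]
    exact H n hn

end Pool.Agent.Results.MP_0d034c_co.CharacterLaws
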