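import Pool.Agent.H207R2.BL.Plane
import Pool.Agent.H207R2.BL.Minor
import Pool.Agent.D0H24.BG.Cat
import Pool.Agent.D0H24.BG.Caps
import Pool.Agent.D0H24.BG.Three
import Pool.Agent.D0H24.BG.Draw

/-!
# The Birkhoff-Lewis inequality for planar graphs glued from two different halves

A half is a finite graph drawn in the closed upper half plane, with `n` boundary vertices on the axis.  A half
`H` and the mirror image of a half `H'` have the same boundary vertices, and their union is a planar
graph; every planar graph arises in this way (cut the plane along a closed curve which meets the graph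
in `n` vertices only).  `P H H'` is its chromatic polynomial.  Let `q ≥ 4`.

The starting files prove the inequality `P(q) ≥ 0` for the mirror symmetric graphs, `H = H'`.  Here
`H` and `H'` are different.  Let `nc n ≤ 4 ^ n` be the number of noncrossing partitions of `n` points (the
Catalan number).  Consider the infinite graph on all halves in which `H` and `H'` are joined if
`P H H'` VIOLATES the inequality of Birkhoff and Lewis, `P H H' (q) ≤ 0`.

* (3) Its chromatic number is at most `nc n * 2 ^ nc n`: the halves fall into so many classes such that
  `P H H' (q) ≥ √(P H H (q) * P H' H' (q)) / nc n` for any `H`, `H'` in the same class, whatever their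
  sizes.
* (4), (5) Its density is at most `1 - 1 / (2 nc n)` for every distribution of the halves: two
  independent random halves with the same law satisfy `P H H' (q) > 0` with probability at least
  `1 / (2 nc n)`, and with a probability at least `(c ^ 2 + 1 / nc n - t - t ^ 2) / 2` more than `t` times the
  geometric mean of `P H H (q)` and `P H' H' (q)`; here `c` is the mean normalized value of
  `P H K (q)`, for any half `K`, for example the empty one.
* (6) It has no clique with more than `2 nc n` vertices, and (7) there are at most `3 nc n` halves `K`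
  (caps) such that EVERY half `H` satisfies `P H K (q) > √(P H H (q) * P K K (q)) / (4 nc n)` for one of them.
* (8) Three halves satisfy a correlation inequality; for the empty half `K` it says that `q ^ n P H H' (q)`
  differs from the product of the values of the two halves by at most the geometric mean of the
  defects `q ^ n P H H (q) - (value of H) ^ 2` of the two mirror symmetric graphs; so it gives a condition
  for `P H H' (q) ≥ 0` for graphs without any symmetry.
* (9) `P H H (q) > 0` holds if `q` is no algebraic integer, or if `P H K (q) ≠ 0` for one half `K`, or if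
  `q > 4` and every minor of `H` has a vertex of degree at most four.

Proof.  The values `P H H' (q)` are inner products of vectors with `nc n` coordinates, because the form
`q ^ |ρ ∨ σ|` is positive semidefinite on the noncrossing partitions for `q ≥ 4` (Temperley-Lieb algebra,
Jones; proved in the starting files), and the vector of a half does not depend on the other half.  Unit
vectors in dimension `r` have pairwise inner products `x` with mean square at least `1 / r` and mean at least
the square of the mean component in any direction, and `x + x ^ 2 ≤ 2` if `x > t` and `≤ t + t ^ 2`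
otherwise.  The classes are given by the signs of the coordinates and the index of the largest one.
-/

set_option autoImplicit false

namespace Pool.Agent.Results.MP_0d034c_co.GluedHalves

open Polynomial Pool.Agent.H207R2.BL Pool.Agent.D0H24.BG

/-- A half: a finite graph drawn in the closed upper half plane, with the boundary vertices
`0, …, n - 1` on the axis, in this order. -/
structure Half (n : ℕ) where
  /-- the other vertices -/
  V : Type
  finite : Finite V
  /-- the graph -/
  G : SimpleGraph (V ⊕ Fin n)
  drawn : DrawnInHalfPlane G

instance {n : ℕ} (H : Half n) : Finite H.V := H.finite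

/-- the chromatic polynomial of the graph glued from `H` and the mirror image of `H'` along the boundary
vertices -/
noncomputable def P {n : ℕ} (H H' : Half n) : ℝ[X] := chr (glue H.G H'.G)

/-- its value at `q` -/
noncomputable def val (q : ℝ) {n : ℕ} (H H' : Half n) : ℝ := (P H H').eval q

/-- the number of the noncrossing partitions of `0, …, n - 1` -/
noncomputable def nc (n : ℕ) : ℕ := Nat.card {ρ : Setoid (Fin n) // NonCrossing ρ}

theorem half_crossless {n : ℕ} (H : Half n) : Crossless H.G := by
  obtain ⟨f, γ, h1, h2, h3, h4, h5⟩ := H.drawn
  exact crossless_of_drawing H.G f γ h1 h2 h3 h4 h5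

/-- the empty half, without edges and without further vertices -/
def E (n : ℕ) : Half n where
  V := Empty
  finite := inferInstance
  G := emptyHalf n
  drawn := by
    refine ⟨fun v => Sum.elim (fun e => e.elim) (fun i => ((i.val : ℝ), 0)) v, fun _ _ _ => 0,
      ⟨?_, ?_, ?_⟩, ?_, ?_, ?_, ?_⟩
    · rintro (e | i) (e' | j) h
      · exact e.elim
      · exact e.elim
      · exact e'.elim
      · have h1 : (i.val : ℝ) = j.val := congrArg Prod.fst h
        exact congrArg Sum.inr (Fin.ext (by exact_mod_cast h1))
    · intro u v h
      exact h.elim
    · intro u v u' v' h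
      exact h.elim
    · rintro (e | i)
      · exact e.elim
      · exact le_rfl
    · intro u v h
      exact h.elim
    · intro i
      rfl
    · intro i j h
      change (i.val : ℝ) < j.val
      exact_mod_cast h

open Classical in
/-- **Two different halves.** -/
theorem result (n : ℕ) (q : ℝ) (hq : 4 ≤ q) :
    -- (1) the glued graphs are planar
    (∀ H H' : Half n, ∃ f γ, IsDrawing (glue H.G H'.G) f γ) ∧
    -- (2) the number of noncrossing partitions
    (1 ≤ nc n ∧ nc n ≤ 4 ^ n) ∧
    -- (3) finitely many classes
    (∃ cls : Half n → Fin (nc n * 2 ^ nc n), ∀ H H' : Half n, cls H = cls H' →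
      √(val q H H * val q H' H') / nc n ≤ val q H H') ∧
    -- (4) random halves
    (∀ (J : Type) [Fintype J] (H : J → Half n) (w : J → ℝ), (∀ i, 0 ≤ w i) → ∑ i, w i = 1 →
      (∀ i, 0 < val q (H i) (H i)) → ∀ (K : Half n) (t : ℝ), 0 ≤ t →
      ((∑ i, w i * (val q (H i) K / √(val q (H i) (H i) * val q K K))) ^ 2 +
        1 / nc n - t - t ^ 2) / 2 ≤
      ∑ i, ∑ j, if t * √(val q (H i) (H i) * val q (H j) (H j)) < val q (H i) (H j)
        then w i * w j else 0) ∧
    -- (5) random halves, no assumptions
    (∀ (J : Type) [Fintype J] (H : J → Half n) (w : J → ℝ), (∀ i, 0 ≤ w i) → ∑ i, w i = 1 →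
      1 / (2 * nc n) ≤ ∑ i, ∑ j, if 0 ≤ val q (H i) (H j) then w i * w j else 0) ∧
    -- (6) no large family of halves which violate the inequality pairwise
    (∀ (J : Type) [Fintype J] (H : J → Half n), (∀ i, 0 < val q (H i) (H i)) →
      2 * nc n < Fintype.card J → ∃ i j, i ≠ j ∧ 0 < val q (H i) (H j)) ∧
    -- (7) finitely many caps
    (∃ m ≤ 3 * nc n, ∃ K : Fin m → Half n, (∀ a, 0 < val q (K a) (K a)) ∧
      ∀ H : Half n, 0 < val q H H → ∃ a,
        1 / (4 * nc n) * √(val q H H * val q (K a) (K a)) < val q H (K a)) ∧
    -- (8) the correlation inequality and a condition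
    (∀ H H' K : Half n,
      (val q H H' * val q K K - val q H K * val q H' K) ^ 2 ≤
        (val q H H * val q K K - val q H K ^ 2) * (val q H' H' * val q K K - val q H' K ^ 2) ∧
      (0 < val q K K → 0 ≤ val q H K * val q H' K →
        val q H H * val q H' H' * val q K K ≤
          val q H K ^ 2 * val q H' H' + val q H' K ^ 2 * val q H H → 0 ≤ val q H H')) ∧
    -- (9) the mirror symmetric graphs
    (∀ H : Half n, 0 ≤ val q H H ∧ (∀ K : Half n, val q H K ^ 2 ≤ val q H H * val q K K) ∧
      (∀ K : Half n, val q H K ≠ 0 → 0 < val q H H) ∧ (¬ IsIntegral ℤ q → 0 < val q H H) ∧ (4 < q → MinorDegLe 4 H.G → 0 < val q H H)) ∧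
    -- (10) symmetry and the empty half
    (∀ H H' : Half n, P H H' = P H' H) ∧ P (E n) (E n) = X ^ n ∧
      ∀ H : Half n, P H (E n) = chr H.G := by
  have hfin := finite_ncp n
  let _ : Fintype (NCP n) := Fintype.ofFinite _
  have hcard : (Fintype.card (NCP n)) = nc n := by
    rw [← Nat.card_eq_fintype_card]
    rfl
  have hne : Nonempty (NCP n) := ⟨⟨⊥, bot_nc n⟩⟩
  obtain ⟨v, hv'⟩ := rep (n := n) (fun H : Half n => H.V) (fun H => H.G) half_crossless
    (fun H H' => P H H') (fun H H' => chr_spec _) q hq
  have hv : ∀ H H' : Half n, val q H H' = ∑ k, v H k * v H' k := hv'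
  have hE : ∀ H : Half n, P H (E n) = chr H.G := by
    intro H
    exact (eq_chr ((chr_spec H.G).of_iso (glueEmpty H.G))).symm
  have hsq : ∀ H K : Half n, val q H K ≠ 0 → 0 < val q H H := by
    intro H K h
    have h1 := two (v H) (v K)
    rw [← hv, ← hv, ← hv] at h1
    have h2 : 0 < val q H K ^ 2 := by positivity
    have h3 : 0 ≤ val q H H := by
      rw [hv]
      exact Finset.sum_nonneg (fun k _ => mul_self_nonneg _)
    refine lt_of_le_of_ne h3 ?_
    intro h4
    rw [← h4, zero_mul] at h1
    linarith
  refine ⟨fun H H' => glue_drawn H.G H'.G H.drawn H'.drawn, card_ncp n, ?_, ?_, ?_, ?_, ?_, ?_, ?_, ?_,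
    (eq_chr (chrom_empty n)).symm, hE⟩
  · obtain ⟨cls, hcls⟩ := classes (NCP n)
    have hc : Nat.card (NCP n × (NCP n → Bool)) = nc n * 2 ^ nc n := by
      rw [Nat.card_eq_fintype_card, Fintype.card_prod, Fintype.card_fun, Fintype.card_bool, hcard]
    refine ⟨fun H => Finite.equivFinOfCardEq hc (cls (v H)), fun H H' h => ?_⟩
    have h1 := hcls (v H) (v H') ((Finite.equivFinOfCardEq hc).injective h)
    rw [hcard, ← hv H H, ← hv H' H', ← hv H H'] at h1
    exact h1
  · intro J _ H w hw hw1 hpos K t ht
    have h := share_gram w hw hw1 (fun i => v (H i)) (fun i => by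
      rw [← hv]
      exact hpos i) (v K) t ht
    rw [hcard] at h
    simp_rw [← hv] at h
    exact h
  · intro J _ H w hw hw1
    have h := share_weak w hw hw1 (fun i => v (H i))
    rw [hcard] at h
    simp_rw [← hv] at h
    exact h
  · intro J _ H hpos hJ
    rw [← hcard] at hJ
    obtain ⟨i, j, hij, h⟩ := many (fun i => v (H i)) (fun i => by
      rw [← hv]
      exact hpos i) hJ
    refine ⟨i, j, hij, ?_⟩
    rw [hv]
    exact h
  · have h := caps3 v
    rw [hcard] at h
    simp_rw [← hv] at h
    exact h
  · intro H H' K
    have h := three (v H) (v H') (v K)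
    simp_rw [← hv] at h
    exact ⟨h, fun h1 h2 h3 => crit h1 h h2 h3⟩
  · intro H
    refine ⟨?_, ?_, hsq H, ?_, ?_⟩
    · rw [hv]
      exact Finset.sum_nonneg (fun k _ => mul_self_nonneg _)
    · intro K
      rw [hv, hv, hv]
      exact two (v H) (v K)
    · intro h
      exact hsq H H (not_root _ _ (chr_spec _) q h)
    · intro h h'
      apply hsq H (E n)
      change (P H (E n)).eval q ≠ 0
      rw [hE]
      exact (minorDeg_pos 4 q (by exact_mod_cast h) H.G h').ne'
  · intro H H'
    refine eq_chr ?_
    intro k
    have h := chr_spec (glue H.G H'.G) k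
    have : Fintype H.V := Fintype.ofFinite _
    have : Fintype H'.V := Fintype.ofFinite _
    change (chr (glue H.G H'.G)).eval (k : ℝ) = _
    rw [h, card_glue, card_glue]
    exact Finset.sum_congr rfl (fun c _ => mul_comm _ _)

end Pool.Agent.Results.MP_0d034c_co.GluedHalves
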