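import Pool.Agent.H207R2.BL.Plane
import Pool.Agent.H207R2.BL.Minor
import Pool.Agent.D0H24.BG.Cat
import Pool.Agent.D0H24.BG.Caps
import Pool.Agent.D0H24.BG.Three
import Pool.Agent.D0H24.LY.Use
import Pool.Agent.D0H24.LY.Share
import Pool.Agent.D0H24.LY.Asym
import Pool.Agent.D0H24.LY.Stk
import Pool.Agent.D0H9.LY.Exp
import Pool.Agent.D0H62.LY.Iso

/-!
# The Birkhoff-Lewis inequality along periodic planar strips with arbitrary ends

A layer is a graph drawn in the strip `0 ≤ y ≤ 1`, with `n` boundary vertices on each of the two lines; it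
is symmetric if some symmetry exchanges them (for example the reflection in the middle line, or a
glide reflection).  For two ends `H`, `K`, graphs drawn in half planes with `n` boundary vertices, let `G_m` be the
planar graph `H`, `m` equal layers, `K`, and `p_m` its chromatic polynomial.  The ends are arbitrary and
different, so `G_m` has no symmetry.  Let `nc n ≤ 4 ^ n` be the number of noncrossing partitions of `n` points.
For every real `q ≥ 4`:

* `p_m(q) = ∑ c_i λ_i ^ m` is a sum of at most `nc n` exponentials with REAL bases;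
* along the even `m ≥ 2`, and along the odd `m`, the numbers `p_m(q)` are all zero, or they are not zero
  except for fewer than `nc n` numbers `m`, they do not alternate weakly at `nc n + 1` places (so there are
  fewer than `nc n` changes of the sign), from some `m` on they all have the same sign, and they are asymptotically
  equal to `C μ ^ (m / 2)` for some real `μ > 0`, `C ≠ 0`.  So the
  inequality of Birkhoff and Lewis holds at `q` for almost all or for almost no `m` of each parity;
* for equal ends `K = H`: either `p_m(q) = 0` for all `m ≥ 1`, also for all other ends `K`, or `p_m(q) > 0` for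
  all even `m`.  So the roots `≥ 4` of `p_2` are the roots `≥ 4` of `p_m`, for every even `m ≥ 2`;
* for random ends: if the two ends are independent with the same law (on finitely many halves for which the first
  case does not occur), then with a probability at least `1 / (2 nc n)` the inequality `p_m(q) > 0` holds for all even
  `m` from some `m` on.

Proof.  The values at `q` of the graphs glued from two halves are the inner products of vectors with `nc n`
coordinates (the form `q ^ |ρ ∨ σ|` is positive semidefinite on the noncrossing partitions, Temperley-Lieb,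
Jones; starting files).  A symmetric layer can be moved across the cut, so it acts on the span of the vectors
of the halves `H`, `H + layer`, `H + 2 layers`, … by a well defined symmetric operator, which is diagonalised
(module of helper9).  A sum of `N` exponentials with positive bases which alternates weakly at `N + 1`
places vanishes (divide and take differences).
-/

set_option autoImplicit false

namespace Pool.Agent.Results.MP_0d034c_co.PeriodicStrips

open Polynomial Filter Topology Pool.Agent.H207R2.BL Pool.Agent.D0H24.BG Pool.Agent.D0H24.LY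

/-- A half: a finite graph drawn in the closed upper half plane, with the boundary vertices
`0, …, n - 1` on the axis, in this order. -/
structure Half (n : ℕ) where
  /-- the other vertices -/
  V : Type
  finite : Finite V
  /-- the graph -/
  G : SimpleGraph (V ⊕ Fin n)
  drawn : DrawnInHalfPlane G

instance {n : ℕ} (H : Half n) : Finite H.V := H.finite

/-- A symmetric layer: a finite graph drawn in the strip `0 ≤ y ≤ 1`, with `n` boundary vertices on each of the
two lines, with a symmetry which exchanges the lower and the upper boundary vertices. -/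
structure Layer (n : ℕ) where
  /-- the interior vertices -/
  W : Type
  finite : Finite W
  /-- the graph -/
  G : SimpleGraph ((W ⊕ Fin n) ⊕ Fin n)
  drawn : DrawnInStrip G
  symmetric : SymmetricLayer G

instance {n : ℕ} (T : Layer n) : Finite T.W := T.finite

/-- the half `H` with the layer `T` added at its boundary -/
def Half.add {n : ℕ} (H : Half n) (T : Layer n) : Half n where
  V := H.V ⊕ (T.W ⊕ Fin n)
  finite := inferInstance
  G := stack H.G T.G
  drawn := t_STK _ _ H.drawn T.drawn

/-- the half `H` with `m` layers `T` -/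
def addN {n : ℕ} (T : Layer n) (H : Half n) : ℕ → Half n
  | 0 => H
  | m + 1 => (addN T H m).add T

/-- the strip: the half `H`, `m` layers `T`, and the mirror image of the half `K` -/
def strip {n : ℕ} (H : Half n) (T : Layer n) (K : Half n) (m : ℕ) :
    SimpleGraph (((addN T H m).V ⊕ K.V) ⊕ Fin n) := glue (addN T H m).G K.G

/-- the value at `q` of the chromatic polynomial of the strip -/
noncomputable def val {n : ℕ} (q : ℝ) (H : Half n) (T : Layer n) (K : Half n) (m : ℕ) : ℝ :=
  (chr (strip H T K m)).eval q

/-- the number of the noncrossing partitions of `0, …, n - 1` -/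
noncomputable def nc (n : ℕ) : ℕ := Nat.card {ρ : Setoid (Fin n) // NonCrossing ρ}

theorem half_crossless {n : ℕ} (H : Half n) : Crossless H.G := by
  obtain ⟨f, γ, h1, h2, h3, h4, h5⟩ := H.drawn
  exact crossless_of_drawing H.G f γ h1 h2 h3 h4 h5

/-- the chromatic polynomial of the graph glued from two halves -/
noncomputable def P {n : ℕ} (H H' : Half n) : ℝ[X] := chr (glue H.G H'.G)

theorem move {n : ℕ} (T : Layer n) (A B : Half n) : P (A.add T) B = P A (B.add T) := by
  obtain ⟨e⟩ := Pool.Agent.D0H62.LY.t_ISO A.G B.G T.G T.symmetric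
  exact eq_chr ((chr_spec _).of_iso e)

theorem moveN {n : ℕ} (T : Layer n) (H K : Half n) (l : ℕ) : ∀ j : ℕ,
    P (addN T H j) (addN T K l) = P (addN T H (j + l)) K := by
  induction l with
  | zero => exact fun j => rfl
  | succ l ih =>
    intro j
    have h1 : P (addN T H j) (addN T K (l + 1)) = P (addN T H (j + 1)) (addN T K l) :=
      (move T _ _).symm
    rw [h1, ih, show j + 1 + l = j + (l + 1) by ring]

open Classical in
/-- **Periodic strips.** -/
theorem result (n : ℕ) (T : Layer n) (H K : Half n) :
    -- (1) the strips are planar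
    (∀ m, ∃ f γ, IsDrawing (strip H T K m) f γ) ∧
    -- (2) the number of noncrossing partitions
    (1 ≤ nc n ∧ nc n ≤ 4 ^ n) ∧
    ∀ q : ℝ, 4 ≤ q →
      -- (3) real exponentials
      (∃ lam c : Fin (nc n) → ℝ, ∀ m, val q H T K m = ∑ i, c i * lam i ^ m) ∧
      -- (4) the numbers of layers of one parity
      (∀ r, 1 ≤ r → (∀ k, val q H T K (2 * k + r) = 0) ∨
        ((∀ Z : Finset ℕ, (∀ k ∈ Z, val q H T K (2 * k + r) = 0) → Z.card < nc n) ∧
        (∀ m : ℕ → ℕ, StrictMono m → (∃ t ≤ nc n, (-1) ^ t * val q H T K (2 * m t + r) < 0) ∧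
          ∃ t ≤ nc n, 0 < (-1) ^ t * val q H T K (2 * m t + r)) ∧
        ((∃ k₀, ∀ k ≥ k₀, 0 < val q H T K (2 * k + r)) ∨
          ∃ k₀, ∀ k ≥ k₀, val q H T K (2 * k + r) < 0) ∧
        ∃ μ C : ℝ, 0 < μ ∧ C ≠ 0 ∧
          Tendsto (fun k : ℕ => val q H T K (2 * k + r) / μ ^ k) atTop (𝓝 C))) ∧
      -- (5) no roots
      (¬ IsIntegral ℤ q → ∀ m, val q H T K m ≠ 0) ∧
      -- (6) equal ends
      (∀ j l, 0 ≤ val q H T H (2 * j) ∧
        val q H T H (j + l) ^ 2 ≤ val q H T H (2 * j) * val q H T H (2 * l) ∧
        val q H T K (j + l) ^ 2 ≤ val q H T H (2 * j) * val q K T K (2 * l)) ∧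
      -- (7) the roots for equal ends
      ((∀ m, 1 ≤ m → val q H T H m = 0 ∧ val q H T K m = 0) ∨ ∀ k, 0 < val q H T H (2 * k)) ∧
      (∀ k, 1 ≤ k → (val q H T H (2 * k) = 0 ↔ val q H T H 2 = 0)) ∧
      -- (8) random ends
      (∀ (J : Type) [Fintype J] (A : J → Half n) (w : J → ℝ), (∀ i, 0 ≤ w i) → ∑ i, w i = 1 →
        (∀ i, val q (A i) T (A i) 2 ≠ 0) →
        1 / (2 * (nc n : ℝ)) ≤
          ∑ i, ∑ j, if ∃ k₀, ∀ k ≥ k₀, 0 < val q (A i) T (A j) (2 * k) then w i * w j else 0) := by
  have hfin := finite_ncp n
  let _ : Fintype (NCP n) := Fintype.ofFinite _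
  have hcard : (Fintype.card (NCP n)) = nc n := by
    rw [← Nat.card_eq_fintype_card]
    rfl
  refine ⟨fun m => glue_drawn _ _ (addN T H m).drawn K.drawn, card_ncp n, fun q hq => ?_⟩
  obtain ⟨v, hv⟩ := rep (n := n) (fun H : Half n => H.V) (fun H => H.G) half_crossless
    (fun H H' => P H H') (fun H H' => chr_spec _) q hq
  -- the values as inner products
  have hval : ∀ (A B : Half n) (j l : ℕ), val q A T B (j + l) =
      ∑ i, v (addN T A j) i * v (addN T B l) i := by
    intro A B j l
    rw [← hv, moveN]
    rfl
  have hexpAB : ∀ A B : Half n, ∃ lam c : Fin (nc n) → ℝ, ∀ m, val q A T B m = ∑ i, c i * lam i ^ m := by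
    intro A B
    have h := Pool.Agent.D0H9.LY.t_EXP (NCP n) (fun j => v (addN T A j)) (fun l => v (addN T B l))
      (fun j l => by
        rw [← hval, ← hval, show j + 1 + l = j + (l + 1) by ring])
      (fun j l => by
        rw [← hval, ← hval, show j + 1 + l = j + (l + 1) by ring])
    rw [hcard] at h
    obtain ⟨lam, c, h⟩ := h
    refine ⟨lam, c, fun m => ?_⟩
    have h1 := h m 0
    rw [← hval, add_zero] at h1
    exact h1
  have hexp := hexpAB H K
  have hCS : ∀ (A B : Half n) (j l : ℕ), val q A T B (j + l) ^ 2 ≤
      val q A T A (2 * j) * val q B T B (2 * l) := by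
    intro A B j l
    rw [two_mul j, two_mul l, hval, hval, hval]
    exact two _ _
  have hpos : ∀ (A : Half n) (j : ℕ), 0 ≤ val q A T A (2 * j) := by
    intro A j
    rw [two_mul, hval]
    exact Finset.sum_nonneg (fun k _ => mul_self_nonneg _)
  -- a zero for equal ends
  have hdown : ∀ (H : Half n) (k : ℕ), 1 ≤ k → val q H T H (2 * k) = 0 → val q H T H 2 = 0 := by
    intro H k hk
    induction k, hk using Nat.le_induction with
    | base => exact fun h => h
    | succ k hk ih =>
      intro h
      apply ih
      have h1 := hCS H H (k + 1) (k - 1)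
      rw [h, zero_mul, show k + 1 + (k - 1) = 2 * k by omega] at h1
      have h2 : val q H T H (2 * k) ^ 2 = 0 := le_antisymm h1 (sq_nonneg _)
      exact pow_eq_zero_iff (two_ne_zero) |>.1 h2
  have hpos2 : ∀ H : Half n, val q H T H 2 ≠ 0 → ∀ k, 0 < val q H T H (2 * k) := by
    intro H h k
    refine lt_of_le_of_ne (hpos H k) (fun h1 => h ?_)
    rcases Nat.eq_zero_or_pos k with h2 | h2
    · have h3 := hCS H H 0 2
      rw [h2] at h1
      rw [← h1, zero_mul, zero_add] at h3
      exact pow_eq_zero_iff (two_ne_zero) |>.1 (le_antisymm h3 (sq_nonneg _))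
    · exact hdown H k h2 h1.symm
  have hzero : val q H T H 2 = 0 → ∀ m, 1 ≤ m → val q H T H m = 0 ∧ val q H T K m = 0 := by
    intro h m hm
    have h1 := hCS H H 1 (m - 1)
    have h2 := hCS H K 1 (m - 1)
    rw [mul_one, h, zero_mul, show 1 + (m - 1) = m by omega] at h1 h2
    exact ⟨pow_eq_zero_iff (two_ne_zero) |>.1 (le_antisymm h1 (sq_nonneg _)),
      pow_eq_zero_iff (two_ne_zero) |>.1 (le_antisymm h2 (sq_nonneg _))⟩
  refine ⟨hexp, ?_, ?_, ?_, ?_, ?_, ?_⟩
  · intro r hr
    obtain ⟨lam, c, h⟩ := hexp
    by_cases hall : ∀ k, val q H T K (2 * k + r) = 0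
    · exact Or.inl hall
    right
    refine ⟨?_, ?_, ?_, ?_⟩
    · rcases zeros lam c (val q H T K) h r hr with h1 | h1
      · exact absurd h1 hall
      · exact h1
    · intro m hm
      constructor
      · by_contra hcon
        push Not at hcon
        exact hall (alt_sq lam c (val q H T K) h r hr m hm hcon)
      · by_contra hcon
        push Not at hcon
        exact hall (alt_neg lam c (val q H T K) h r hr m hm hcon)
    · rcases tricho lam c (val q H T K) h r hr with h1 | h1
      · exact absurd h1 hall
      · exact h1
    · rcases asym_sq lam c (val q H T K) h r hr with h1 | h1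
      · exact absurd h1 hall
      · exact h1
  · intro hqi m
    exact not_root _ _ (chr_spec _) q hqi
  · exact fun j l => ⟨hpos H j, hCS H H j l, hCS H K j l⟩
  · by_cases h : val q H T H 2 = 0
    · exact Or.inl (hzero h)
    · exact Or.inr (hpos2 H h)
  · intro k hk
    exact ⟨hdown H k hk, fun h => (hzero h (2 * k) (by omega)).1⟩
  · intro J _ A w hw hw1 hA
    have hne : Nonempty (NCP n) := ⟨⟨⊥, bot_nc n⟩⟩
    have hv2 : ∀ i j (a : ℕ), ∑ k, v (addN T (A i) a) k * v (addN T (A j) a) k =
        val q (A i) T (A j) (2 * a) := by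
      intro i j a
      rw [two_mul, hval]
    have h := share_even w hw hw1 (fun i a => v (addN T (A i) a)) (fun i a => by
      rw [hv2]
      exact hpos2 (A i) (hA i) a) (fun i j => by
      simp only [hv2]
      obtain ⟨lam, c, h⟩ := hexpAB (A i) (A j)
      rcases tricho lam c (val q (A i) T (A j)) h 2 (by omega) with h1 | ⟨k₀, h1⟩ | ⟨k₀, h1⟩
      · right
        refine Filter.eventually_atTop.2 ⟨1, fun a ha => ?_⟩
        have h2 := h1 (a - 1)
        rw [show 2 * (a - 1) + 2 = 2 * a by omega] at h2
        rw [h2]
        exact lt_irrefl _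
      · left
        refine Filter.eventually_atTop.2 ⟨k₀ + 1, fun a ha => ?_⟩
        have h2 := h1 (a - 1) (by omega)
        rwa [show 2 * (a - 1) + 2 = 2 * a by omega] at h2
      · right
        refine Filter.eventually_atTop.2 ⟨k₀ + 1, fun a ha => ?_⟩
        have h2 := h1 (a - 1) (by omega)
        rw [show 2 * (a - 1) + 2 = 2 * a by omega] at h2
        exact h2.le.not_gt)
    rw [hcard] at h
    simp only [hv2, Filter.eventually_atTop] at h
    exact h

end Pool.Agent.Results.MP_0d034c_co.PeriodicStrips
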